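import Mathlib
import Pool.Agent.H14.Tf.Base

/-!
# Relations between classes of fundamental weights: lines and stars
-/

set_option autoImplicit false
set_option linter.unusedSectionVars false
set_option linter.unusedVariables false

namespace Pool.Agent.H64.Tf

open scoped InnerProductSpace
open Pool.Agent.H32.C4 Pool.Agent.H14.Tf

variable {R : Type} [Fintype R] [DecidableEq R] {E : Type} [NormedAddCommGroup E]
  [InnerProductSpace ℝ E]

/-- the class of a node -/
abbrev e (b : R) : R → ℤ := Pi.single b 1

/-- the row of a node of the Cartan matrix of a simply laced component -/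
noncomputable def row (α : R → E) (a : R) : R → ℤ := by
  classical
  exact fun b => if b = a then 2 else if ⟪α a, α b⟫_ℝ = 0 then 0 else -1

theorem rel_node {α : R → E} (hα : Rts α) {C : Set R} (hC : Cmp α C) (hS : SL α C) {a : R}
    (ha : a ∈ C) : Rel α (row α a) := by
  classical
  refine ⟨Pi.single a 1, fun b => ?_⟩
  have h1 : ∑ x, ((Pi.single a (1 : ℤ) : R → ℤ) x : ℝ) * ⟪α x, α b⟫_ℝ = ⟪α a, α b⟫_ℝ := by
    rw [Finset.sum_eq_single a]
    · simp
    · intro x _ hx
      simp [Pi.single_eq_of_ne hx]
    · intro h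
      exact absurd (Finset.mem_univ a) h
  rw [h1]
  unfold row
  by_cases hb : b = a
  · subst hb
    simp only [if_true]
    push_cast
    ring
  · by_cases h0 : ⟪α a, α b⟫_ℝ = 0
    · simp [hb, h0]
    · simp only [hb, h0, if_false]
      have h2 := hS a ha b (hC.closed a ha b h0) (fun h => hb h.symm) h0
      push_cast
      linarith

open Classical in
/-- the form asked for by helper14 -/
theorem rel_node' {α : R → E} (hα : Rts α) {C : Set R} (hC : Cmp α C) (hS : SL α C) {a : R}
    (ha : a ∈ C) : Rel α (fun b => if b = a then 2 else if ⟪α a, α b⟫_ℝ = 0 then 0 else -1) := by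
  have h := rel_node hα hC hS ha
  have h1 : row α a = fun b => if b = a then 2 else if ⟪α a, α b⟫_ℝ = 0 then 0 else -1 := by
    funext b
    unfold row
    by_cases h1 : b = a <;> by_cases h2 : ⟪α a, α b⟫_ℝ = 0 <;> simp [h1, h2]
  rwa [h1] at h

/-- the class in the weight group modulo the root lattice -/
noncomputable def q (α : R → E) : (R → ℤ) →+ (R → ℤ) ⧸ RelG α := QuotientAddGroup.mk' (RelG α)

theorem q_eq_zero {α : R → E} {n : R → ℤ} : q α n = 0 ↔ Rel α n := by
  unfold q
  rw [QuotientAddGroup.mk'_apply, QuotientAddGroup.eq_zero_iff]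
  exact mem_RelG

/-- the class relation at a node -/
theorem cls {α : R → E} (hα : Rts α) {C : Set R} (hC : Cmp α C) (hS : SL α C) {a : R}
    (ha : a ∈ C) (S : Finset R) (haS : a ∉ S) (hSC : ∀ b ∈ S, b ∈ C)
    (hN : ∀ b ∈ C, b ≠ a → (⟪α a, α b⟫_ℝ ≠ 0 ↔ b ∈ S)) :
    2 • q α (e a) = ∑ b ∈ S, q α (e b) := by
  classical
  have h1 : row α a = 2 • e a - ∑ b ∈ S, e b := by
    funext b
    have h2 : (∑ x ∈ S, e x) b = if b ∈ S then 1 else 0 := by
      rw [Finset.sum_apply]
      by_cases hb : b ∈ S
      · rw [if_pos hb, Finset.sum_eq_single b]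
        · simp
        · intro x _ hx
          simp [Pi.single_eq_of_ne hx.symm]
        · intro h
          exact absurd hb h
      · rw [if_neg hb]
        refine Finset.sum_eq_zero fun x hx => ?_
        have hxb : b ≠ x := fun h => hb (h ▸ hx)
        simp [Pi.single_eq_of_ne hxb]
    rw [Pi.sub_apply, h2, Pi.smul_apply]
    unfold row
    by_cases hb : b = a
    · subst hb
      simp [haS]
    · by_cases hbC : b ∈ C
      · have h3 := hN b hbC hb
        by_cases h0 : ⟪α a, α b⟫_ℝ = 0
        · have hbS : b ∉ S := fun h => h3.2 h h0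
          simp [hb, h0, hbS]
        · have hbS : b ∈ S := h3.1 h0
          simp [hb, h0, hbS]
      · have h0 : ⟪α a, α b⟫_ℝ = 0 := by
          by_contra h
          exact hbC (hC.closed a ha b h)
        have hbS : b ∉ S := fun h => hbC (hSC b h)
        simp [hb, h0, hbS]
  have h4 := q_eq_zero.2 (rel_node hα hC hS ha)
  rw [h1, map_sub, map_nsmul, map_sum] at h4
  exact sub_eq_zero.1 h4

/-- an arithmetic progression in an abelian group -/
theorem seq {Q : Type*} [AddCommGroup Q] (x : ℕ → Q) (n : ℕ) (h0 : 1 ≤ n → 2 • x 0 = x 1)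
    (h : ∀ i, i + 2 ≤ n → 2 • x (i + 1) = x i + x (i + 2)) :
    ∀ i, i ≤ n → x i = (i + 1) • x 0 := by
  intro i
  induction i using Nat.strong_induction_on with
  | _ i ih =>
    intro hi
    rcases i with _ | i
    · simp
    rcases i with _ | i
    · exact (h0 hi).symm
    · have h1 := ih i (by omega) (by omega)
      have h2 := ih (i + 1) (by omega) (by omega)
      have h3 := h i hi
      rw [h1, h2] at h3
      have h4 : 2 • (i + 1 + 1) • x 0 = (i + 1) • x 0 + (i + 2 + 1) • x 0 := by
        rw [smul_smul, ← add_nsmul]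
        congr 1
        ring
      rw [h4] at h3
      exact (add_left_cancel h3).symm

section line

variable {α : R → E} (hα : Rts α) {C : Set R} (hC : Cmp α C) (hS : SL α C) {N : ℕ} {c : ℕ → R}
  (hL : Line α C N c)

include hL in
theorem line_nb {i j : ℕ} (hi : i ≤ N) (hj : j ≤ N) (hij : i ≠ j) :
    ⟪α (c i), α (c j)⟫_ℝ ≠ 0 ↔ i + 1 = j ∨ j + 1 = i := by
  constructor
  · intro h
    by_contra hcon
    rcases Nat.lt_or_ge i j with h1 | h1
    · exact h (hL.far i j (by omega) hj)
    · rw [real_inner_comm] at h
      exact h (hL.far j i (by omega) hi)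
  · rintro (h | h)
    · subst h
      exact hL.adj i (by omega)
    · subst h
      rw [real_inner_comm]
      exact hL.adj j (by omega)

include hL in
theorem line_rev : Line α C N (fun i => c (N - i)) where
  mem i hi := hL.mem _ (by omega)
  all x hx := by
    obtain ⟨i, hi, rfl⟩ := hL.all x hx
    exact ⟨N - i, by omega, by congr 1; omega⟩
  inj i hi j hj h := by
    have := hL.inj (N - i) (by omega) (N - j) (by omega) h
    omega
  adj i hi := by
    have h := hL.adj (N - (i + 1)) (by omega)
    rw [real_inner_comm]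
    have e1 : N - (i + 1) + 1 = N - i := by omega
    rwa [e1] at h
  far i j hij hj := by
    rw [real_inner_comm]
    exact hL.far (N - j) (N - i) (by omega) (by omega)

include hα hC hS hL in
/-- class relation at a node of a line, `S` = set of the indices of the neighbours -/
theorem line_cls {i : ℕ} (hi : i ≤ N) (S : Finset ℕ)
    (hSn : ∀ j, j ∈ S ↔ j ≤ N ∧ (i + 1 = j ∨ j + 1 = i)) :
    2 • q α (e (c i)) = ∑ j ∈ S, q α (e (c j)) := by
  have hinj : Set.InjOn c ↑S := by
    intro x hx y hy hxy
    exact hL.inj x ((hSn x).1 (Finset.mem_coe.1 hx)).1 y ((hSn y).1 (Finset.mem_coe.1 hy)).1 hxy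
  have h := cls hα hC hS (hL.mem i hi) (S.image c) (by
    rw [Finset.mem_image]
    rintro ⟨j, hj, hji⟩
    have h1 := (hSn j).1 hj
    have := hL.inj j h1.1 i hi hji
    omega) (by
    intro b hb
    obtain ⟨j, hj, rfl⟩ := Finset.mem_image.1 hb
    exact hL.mem j ((hSn j).1 hj).1) (by
    intro b hb hne
    obtain ⟨j, hj, rfl⟩ := hL.all b hb
    have hj0 : i ≠ j := fun h => hne (h ▸ rfl)
    rw [line_nb hL hi hj hj0, Finset.mem_image]
    constructor
    · intro h
      exact ⟨j, (hSn j).2 ⟨hj, h⟩, rfl⟩
    · rintro ⟨k, hk, hkj⟩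
      have h1 := (hSn k).1 hk
      have h2 := hL.inj k h1.1 j hj hkj
      rw [← h2]
      exact h1.2)
  rw [h, Finset.sum_image hinj]

include hα hC hS hL in
theorem line_seq : ∀ i, i ≤ N → q α (e (c i)) = (i + 1) • q α (e (c 0)) := by
  refine seq (fun i => q α (e (c i))) N ?_ ?_
  · intro h1
    have h := line_cls hα hC hS hL (Nat.zero_le N) {1} (by
      intro j
      rw [Finset.mem_singleton]
      omega)
    rwa [Finset.sum_singleton] at h
  · intro i hi
    have h := line_cls hα hC hS hL (show i + 1 ≤ N by omega) {i, i + 2} (by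
      intro j
      rw [Finset.mem_insert, Finset.mem_singleton]
      omega)
    rwa [Finset.sum_pair (by omega)] at h

include hα hC hS hL in
/-- `(N + 2) [c 0] = 0` -/
theorem line_order : (N + 2) • q α (e (c 0)) = 0 := by
  rcases Nat.eq_zero_or_pos N with rfl | hN
  · have h := line_cls hα hC hS hL (Nat.zero_le 0) ∅ (by
      intro j
      simp only [Finset.notMem_empty, false_iff]
      omega)
    rwa [Finset.sum_empty] at h
  · have h := line_cls hα hC hS hL (le_refl N) {N - 1} (by
      intro j
      rw [Finset.mem_singleton]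
      omega)
    rw [Finset.sum_singleton, line_seq hα hC hS hL N le_rfl,
      line_seq hα hC hS hL (N - 1) (by omega), smul_smul] at h
    have e1 : 2 * (N + 1) = (N + 2) + (N - 1 + 1) := by omega
    rw [e1, add_nsmul] at h
    have h2 : (N + 2) • q α (e (c 0)) + (N - 1 + 1) • q α (e (c 0)) =
        0 + (N - 1 + 1) • q α (e (c 0)) := by rw [h, zero_add]
    exact add_right_cancel h2

include hα hC hS hL in
theorem line_rel_ends : Rel α (Pi.single (c 0) 1 + Pi.single (c N) 1) := by
  rw [← q_eq_zero, map_add]
  have h1 := line_order hα hC hS hL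
  have h2 := line_seq hα hC hS hL N le_rfl
  change q α (e (c 0)) + q α (e (c N)) = 0
  rw [h2, ← h1]
  have e1 : N + 2 = 1 + (N + 1) := by omega
  rw [e1, add_nsmul _ 1, one_nsmul]

end line

section star

variable {α : R → E} (hα : Rts α) {C : Set R} (hC : Cmp α C) (hS : SL α C) {m u : ℕ}
  {a : ℕ → R} {g : R} (hT : Star α C m u a g)

include hT in
theorem star_nb {i j : ℕ} (hi : i ≤ m) (hj : j ≤ m) (hij : i ≠ j) :
    ⟪α (a i), α (a j)⟫_ℝ ≠ 0 ↔ i + 1 = j ∨ j + 1 = i := by
  constructor
  · intro h
    by_contra hcon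
    rcases Nat.lt_or_ge i j with h1 | h1
    · exact h (hT.far i j (by omega) hj)
    · rw [real_inner_comm] at h
      exact h (hT.far j i (by omega) hi)
  · rintro (h | h)
    · subst h
      exact hT.adj i (by omega)
    · subst h
      rw [real_inner_comm]
      exact hT.adj j (by omega)

include hT in
theorem star_rev : Star α C m (m - u) (fun i => a (m - i)) g where
  mem i hi := hT.mem _ (by omega)
  gmem := hT.gmem
  all x hx := by
    rcases hT.all x hx with rfl | ⟨i, hi, rfl⟩
    · exact Or.inl rfl
    · exact Or.inr ⟨m - i, by omega, by congr 1; omega⟩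
  inj i hi j hj h := by
    have := hT.inj (m - i) (by omega) (m - j) (by omega) h
    omega
  gne i hi := hT.gne _ (by omega)
  adj i hi := by
    have h := hT.adj (m - (i + 1)) (by omega)
    rw [real_inner_comm]
    have e1 : m - (i + 1) + 1 = m - i := by omega
    rwa [e1] at h
  far i j hij hj := by
    rw [real_inner_comm]
    exact hT.far (m - j) (m - i) (by omega) (by omega)
  gadj := by
    have h1 := hT.lt
    have e1 : m - (m - u) = u := by omega
    rw [e1]
    exact hT.gadj
  gfar i hi hne := hT.gfar _ (by omega) (by omega)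
  pos := by
    have h1 := hT.lt
    omega
  lt := by
    have h1 := hT.lt
    have h2 := hT.pos
    omega

include hα hC hS hT in
/-- class relation at a node `≠ g` of a star -/
theorem star_cls {i : ℕ} (hi : i ≤ m) (S : Finset ℕ)
    (hSn : ∀ j, j ∈ S ↔ j ≤ m ∧ (i + 1 = j ∨ j + 1 = i)) :
    2 • q α (e (a i)) = ∑ j ∈ S, q α (e (a j)) + if i = u then q α (e g) else 0 := by
  have hinj : Set.InjOn a ↑S := by
    intro x hx y hy hxy
    exact hT.inj x ((hSn x).1 (Finset.mem_coe.1 hx)).1 y ((hSn y).1 (Finset.mem_coe.1 hy)).1 hxy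
  have hgS : g ∉ S.image a := by
    rw [Finset.mem_image]
    rintro ⟨j, hj, hjg⟩
    exact hT.gne j ((hSn j).1 hj).1 hjg
  have haS : a i ∉ S.image a := by
    rw [Finset.mem_image]
    rintro ⟨j, hj, hji⟩
    have h1 := (hSn j).1 hj
    have := hT.inj j h1.1 i hi hji
    omega
  have hjS : ∀ j, j ≤ m → i ≠ j → (⟪α (a i), α (a j)⟫_ℝ ≠ 0 ↔ a j ∈ S.image a) := by
    intro j hj hj0
    rw [star_nb hT hi hj hj0, Finset.mem_image]
    constructor
    · intro h
      exact ⟨j, (hSn j).2 ⟨hj, h⟩, rfl⟩
    · rintro ⟨k, hk, hkj⟩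
      have h1 := (hSn k).1 hk
      have h2 := hT.inj k h1.1 j hj hkj
      rw [← h2]
      exact h1.2
  have hSC : ∀ b ∈ S.image a, b ∈ C := by
    intro b hb
    obtain ⟨j, hj, rfl⟩ := Finset.mem_image.1 hb
    exact hT.mem j ((hSn j).1 hj).1
  by_cases hiu : i = u
  · have h := cls hα hC hS (hT.mem i hi) (insert g (S.image a)) (by
      rw [Finset.mem_insert]
      rintro (h | h)
      · exact hT.gne i hi h
      · exact haS h) (by
      intro b hb
      rcases Finset.mem_insert.1 hb with rfl | hb
      · exact hT.gmem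
      · exact hSC b hb) (by
      intro b hb hne
      rw [Finset.mem_insert]
      rcases hT.all b hb with rfl | ⟨j, hj, rfl⟩
      · constructor
        · intro _
          exact Or.inl rfl
        · intro _
          rw [hiu]
          exact hT.gadj
      · have hj0 : i ≠ j := fun h => hne (h ▸ rfl)
        rw [hjS j hj hj0]
        constructor
        · intro h
          exact Or.inr h
        · rintro (h | h)
          · exact absurd h (hT.gne j hj)
          · exact h)
    rw [if_pos hiu, h, Finset.sum_insert hgS, Finset.sum_image hinj, add_comm]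
  · have h := cls hα hC hS (hT.mem i hi) (S.image a) haS hSC (by
      intro b hb hne
      rcases hT.all b hb with rfl | ⟨j, hj, rfl⟩
      · constructor
        · intro h
          exact absurd (hT.gfar i hi hiu) h
        · intro h
          exact absurd h hgS
      · have hj0 : i ≠ j := fun h => hne (h ▸ rfl)
        exact hjS j hj hj0)
    rw [if_neg hiu, add_zero, h, Finset.sum_image hinj]

include hα hC hS hT in
/-- class relation at `g` -/
theorem star_g : 2 • q α (e g) = q α (e (a u)) := by
  have hum : u ≤ m := hT.lt.le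
  have h := cls hα hC hS hT.gmem {a u} (by
    rw [Finset.mem_singleton]
    intro h
    exact hT.gne u hum h.symm) (by
    intro b hb
    rw [Finset.mem_singleton] at hb
    subst hb
    exact hT.mem u hum) (by
    intro b hb hne
    rw [Finset.mem_singleton]
    rcases hT.all b hb with rfl | ⟨j, hj, rfl⟩
    · exact absurd rfl hne
    · constructor
      · intro h
        by_contra hcon
        rw [real_inner_comm] at h
        exact h (hT.gfar j hj fun h2 => hcon (h2 ▸ rfl))
      · intro h
        rw [h, real_inner_comm]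
        exact hT.gadj)
  rwa [Finset.sum_singleton] at h

include hα hC hS hT in
/-- along the first arm -/
theorem star_seq : ∀ i, i ≤ u → q α (e (a i)) = (i + 1) • q α (e (a 0)) := by
  have hum := hT.lt
  refine seq (fun i => q α (e (a i))) u ?_ ?_
  · intro h1
    have h := star_cls hα hC hS hT (Nat.zero_le m) {1} (by
      intro j
      rw [Finset.mem_singleton]
      omega)
    rwa [Finset.sum_singleton, if_neg (by omega), add_zero] at h
  · intro i hi
    have h := star_cls hα hC hS hT (show i + 1 ≤ m by omega) {i, i + 2} (by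
      intro j
      rw [Finset.mem_insert, Finset.mem_singleton]
      omega)
    rwa [Finset.sum_pair (by omega), if_neg (by omega), add_zero] at h

include hα hC hS hT in
/-- along the second arm -/
theorem star_seq' : ∀ i, i ≤ m - u → q α (e (a (m - i))) = (i + 1) • q α (e (a m)) := by
  have h := star_seq hα hC hS (star_rev hT)
  simpa using h

include hα hC hS hT in
/-- at the branch node -/
theorem star_branch :
    2 • q α (e (a u)) = q α (e (a (u - 1))) + q α (e (a (u + 1))) + q α (e g) := by
  have hum := hT.lt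
  have hu := hT.pos
  have h := star_cls hα hC hS hT hum.le {u - 1, u + 1} (by
    intro j
    rw [Finset.mem_insert, Finset.mem_singleton]
    omega)
  rwa [Finset.sum_pair (by omega), if_pos rfl] at h

include hα hC hS hT in
theorem star_rel : (u = 1 → Rel α (Pi.single (a 0) 4) ∧
    Rel α (Pi.single (a 0) 2 + Pi.single g 2)) ∧ (m = u + 1 → Rel α (Pi.single (a 0) 2)) := by
  have hum := hT.lt
  have hu := hT.pos
  have hg := star_g hα hC hS hT
  have hb := star_branch hα hC hS hT
  have hk : ∀ (k : ℕ) (b : R), (Pi.single b (k : ℤ) : R → ℤ) = k • e b := by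
    intro k b
    rw [← Pi.single_smul]
    simp
  have hk2 : ∀ (b : R), (Pi.single b (2 : ℤ) : R → ℤ) = 2 • e b := fun b => hk 2 b
  have hk4 : ∀ (b : R), (Pi.single b (4 : ℤ) : R → ℤ) = 4 • e b := fun b => hk 4 b
  constructor
  · intro hu1
    subst hu1
    have h1 := star_seq hα hC hS hT 1 le_rfl
    have h2 := star_seq' hα hC hS hT (m - 1) le_rfl
    have h3 := star_seq' hα hC hS hT (m - 2) (by omega)
    have e1 : m - (m - 1) = 1 := by omega
    have e2 : m - (m - 2) = 2 := by omega
    have e3 : m - 1 + 1 = m := by omega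
    have e4 : m - 2 + 1 = m - 1 := by omega
    rw [e1, e3] at h2
    rw [e2, e4] at h3
    have e5 : (1 : ℕ) - 1 = 0 := rfl
    rw [e5] at hb
    change 2 • q α (e (a 1)) = q α (e (a 0)) + q α (e (a 2)) + q α (e g) at hb
    change q α (e (a 1)) = 2 • q α (e (a 0)) at h1
    set x := q α (e (a 0)) with hx
    set s := q α (e (a m)) with hs
    set y := q α (e g) with hy
    set b := q α (e (a 1)) with hbd
    rw [h3, h2] at hb
    -- `m s = 2 x = 2 y`
    have hy2 : 2 • y = m • s := by rw [hg, h2]
    have hx2 : 2 • x = m • s := by rw [← h1, h2]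
    obtain ⟨n, rfl⟩ : ∃ n, m = n + 1 := ⟨m - 1, by omega⟩
    have e6 : n + 1 - 1 = n := rfl
    rw [e6] at hb
    have hxy : x + y = (n + 2) • s := by
      have h5 : (x + y) + n • s = (n + 2) • s + n • s := by
        have h6 : 2 • (n + 1) • s = (n + 2) • s + n • s := by
          rw [smul_smul, ← add_nsmul]
          congr 1
          ring
        rw [← h6, hb]
        abel
      exact add_right_cancel h5
    have hs2 : 2 • s = 0 := by
      have h5 : 2 • (x + y) = 2 • (n + 2) • s := by rw [hxy]
      rw [nsmul_add, hx2, hy2, smul_smul, ← add_nsmul] at h5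
      have e7 : 2 * (n + 2) = 2 + (n + 1 + (n + 1)) := by ring
      rw [e7, add_nsmul _ 2] at h5
      have h8 : 0 + (n + 1 + (n + 1)) • s = 2 • s + (n + 1 + (n + 1)) • s := by
        rw [zero_add]
        exact h5
      exact (add_right_cancel h8).symm
    have h9 : (n + 1 + (n + 1)) • s = 0 := by
      have e8 : n + 1 + (n + 1) = (n + 1) * 2 := by ring
      rw [e8, mul_nsmul', hs2, nsmul_zero]
    constructor
    · rw [← q_eq_zero, hk4, map_nsmul]
      have e9 : (4 : ℕ) • x = 2 • x + 2 • x := by
        rw [← add_nsmul]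
      change 4 • x = 0
      rw [e9, hx2, ← add_nsmul]
      exact h9
    · rw [← q_eq_zero, map_add, hk2, hk2, map_nsmul, map_nsmul]
      change 2 • x + 2 • y = 0
      rw [hx2, hy2, ← add_nsmul]
      exact h9
  · intro hm
    subst hm
    have h1 := star_seq hα hC hS hT u le_rfl
    have h2 := star_seq hα hC hS hT (u - 1) (by omega)
    have h3 := star_seq' hα hC hS hT 1 (by omega)
    have e1 : u + 1 - 1 = u := rfl
    rw [e1] at h3
    have e2 : u - 1 + 1 = u := by omega
    rw [e2] at h2
    change q α (e (a u)) = 2 • q α (e (a (u + 1))) at h3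
    rw [h2] at hb
    set x := q α (e (a 0)) with hx
    set s := q α (e (a (u + 1))) with hs
    set y := q α (e g) with hy
    rw [h1] at hb hg
    have hs2 : 2 • s = (u + 1) • x := by rw [← h3, h1]
    have hsy : s + y = (u + 2) • x := by
      have h5 : (s + y) + u • x = (u + 2) • x + u • x := by
        have h6 : 2 • (u + 1) • x = (u + 2) • x + u • x := by
          rw [smul_smul, ← add_nsmul]
          congr 1
          ring
        rw [← h6, hb]
        abel
      exact add_right_cancel h5
    rw [← q_eq_zero, hk2, map_nsmul]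
    change 2 • x = 0
    have h5 : 2 • (s + y) = 2 • (u + 2) • x := by rw [hsy]
    rw [nsmul_add, hs2, hg, smul_smul, ← add_nsmul] at h5
    have e7 : 2 * (u + 2) = 2 + (u + 1 + (u + 1)) := by ring
    rw [e7, add_nsmul _ 2] at h5
    have h8 : 0 + (u + 1 + (u + 1)) • x = 2 • x + (u + 1 + (u + 1)) • x := by
      rw [zero_add]
      exact h5
    exact (add_right_cancel h8).symm

end star

end Pool.Agent.H64.Tf
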